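import Pool.Agent.helper52.HY.Spec

set_option autoImplicit false

open Complex Metric Set Filter Topology MeasureTheory
open Pool.Agent.helper98.ILF Pool.Agent.helper16.Multibrot

noncomputable section

namespace HY

/-- a holomorphic inverse of an injective holomorphic function on the disc. -/
theorem PDC_inv (hKO0 : V3.KO0_stmt) {F : ℂ → ℂ} (hF : DifferentiableOn ℂ F UD)
    (hinj : InjOn F UD) :
    ∃ g : ℂ → ℂ, (∀ x ∈ UD, g (F x) = x) ∧ (∀ x ∈ UD, DifferentiableAt ℂ g (F x)) := by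
  have hne0 : UD.Nonempty := ⟨0, by simp [UD]⟩
  have hop : IsOpen UD := isOpen_ball
  have hg : ∀ x ∈ UD, Function.invFunOn F UD (F x) = x := fun x hx =>
    Function.invFunOn_apply_eq (f := F) hx |> fun h =>
      hinj (Function.invFunOn_apply_mem (f := F) hx) hx h
  refine ⟨Function.invFunOn F UD, hg, ?_⟩
  intro x hx
  set g := Function.invFunOn F UD with hgdef
  have han : AnalyticAt ℂ F x := hF.analyticAt (hop.mem_nhds hx)
  have hne : deriv F x ≠ 0 := hKO0 F UD hop hF hinj _ hx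
  have hst : HasStrictDerivAt F (deriv F x) x := han.hasStrictDerivAt
  have hmap : Filter.map F (𝓝 x) = 𝓝 (F x) := hst.map_nhds_eq hne
  have hgx : g (F x) = x := hg x hx
  have hcont : ContinuousAt g (F x) := by
    have e1 : Tendsto (g ∘ F) (𝓝 x) (𝓝 x) := by
      refine Tendsto.congr' ?_ tendsto_id
      have e2 : ∀ᶠ y in 𝓝 x, y ∈ UD := hop.mem_nhds hx
      filter_upwards [e2] with y hy
      exact (hg y hy).symm
    have e4 : Tendsto g (Filter.map F (𝓝 x)) (𝓝 x) := by
      rw [tendsto_map'_iff]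
      exact e1
    rw [hmap] at e4
    unfold ContinuousAt
    rw [hgx]
    exact e4
  have hst' : HasDerivAt F (deriv F x) (g (F x)) := by
    rw [hgx]; exact hst.hasDerivAt
  refine (HasDerivAt.of_local_left_inverse hcont hst' hne ?_).differentiableAt
  have e5 : ∀ᶠ y in Filter.map F (𝓝 x), F (g y) = y := by
    rw [Filter.eventually_map]
    filter_upwards [hop.mem_nhds hx] with y hy
    rw [hg y hy]
  rw [hmap] at e5
  exact e5

theorem PDC (hMOB : MOB_stmt) (hKO0 : V3.KO0_stmt) : PDC_stmt := by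
  intro n c V φ ψ b hSG y hy y' hy' hrel
  obtain ⟨g, hg1, hg2⟩ := PDC_inv hKO0 hSG.rm.dif hSG.rm.inj
  have hψV : ∀ x ∈ UD, ψ x ∈ V := by
    intro x hx
    apply hSG.sub
    rw [← hSG.rmu.img]
    exact mem_image_of_mem _ hx
  have hψφ : ∀ x ∈ UD, ∃ u ∈ UD, φ u = ψ x := by
    intro x hx
    have := hψV x hx
    rw [← hSG.rm.img] at this
    exact this
  have hJd : DifferentiableOn ℂ (fun x => g (ψ x)) (ball 0 1) := by
    intro x hx
    obtain ⟨u, hu, huφ⟩ := hψφ x hx
    have h1 : DifferentiableAt ℂ g (ψ x) := by rw [← huφ]; exact hg2 u hu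
    have h2 : DifferentiableAt ℂ ψ x :=
      (hSG.rmu.dif x hx).differentiableAt (isOpen_ball.mem_nhds hx)
    exact (DifferentiableAt.comp x h1 h2).differentiableWithinAt
  have hJm : MapsTo (fun x => g (ψ x)) (ball 0 1) (closedBall 0 1) := by
    intro x hx
    obtain ⟨u, hu, huφ⟩ := hψφ x hx
    have : g (ψ x) = u := by rw [← huφ]; exact hg1 u hu
    simp only [this]
    exact ball_subset_closedBall hu
  have h0 : (0 : ℂ) ∈ UD := by simp [UD]
  have hJ0 : (fun x => g (ψ x)) 0 = 0 := by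
    have h1 : ψ 0 = φ 0 := by rw [hSG.rmu.val, hSG.rm.val]
    simp only [h1]
    exact hg1 0 h0
  -- the point x
  have hU : φ y ∈ {z | fz n c z ∈ V} := by
    show fz n c (φ y) ∈ V
    rw [← hrel, ← hSG.rm.img]
    exact mem_image_of_mem _ hy'
  rw [← hSG.rmu.img] at hU
  obtain ⟨x, hx, hxy⟩ := hU
  have hJx : g (ψ x) = y := by rw [hxy]; exact hg1 y hy
  have hle : ‖y‖ ≤ ‖x‖ := by
    have hx1 : ‖x‖ < 1 := by simpa [UD] using hx
    have := Complex.norm_le_norm_of_mapsTo_ball hJd hJm hJ0 hx1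
    simpa [hJx] using this
  have hxn : x ^ n ∈ UD := by
    have hx1 : ‖x‖ < 1 := by simpa [UD] using hx
    have hn : n ≠ 0 := by have := hSG.hn; omega
    simp only [UD, mem_ball, dist_zero_right, norm_pow]
    exact pow_lt_one₀ (norm_nonneg _) hx1 hn
  obtain ⟨hmob, -⟩ := hMOB b hSG.hb
  obtain ⟨-, hSb, -, hTS⟩ := hmob (x ^ n) hxn
  have hy'S : y' = S b (x ^ n) := by
    apply hSG.rm.inj hy' hSb
    rw [← hSG.rel x hx, hxy, hrel]
  rw [hy'S, hTS, norm_pow]
  exact pow_le_pow_left₀ (norm_nonneg _) hle n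

end HY
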