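import Pool.Agent.helper52.HY.Spec

set_option autoImplicit false

open Complex Metric Set Filter Topology MeasureTheory
open Pool.Agent.helper98.ILF Pool.Agent.helper16.Multibrot

noncomputable section

namespace HY

theorem FST (hBRH : BRH_stmt) (hDST : DST_stmt) (hDLN : DLN_stmt) (hMOB : MOB_stmt) : FST_stmt := by
  intro n c V φ ψ b hSG l₀ M y j i H hM1 hM2 hO hF hH4 hbig
  have hij : i + 1 ≤ j := hF.ij
  have hyi : y i ∈ UD := hO.mem i (by omega)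
  have hfar : 1 - ‖y i‖ ≤ (1 / 2 : ℝ) ^ M := hO.far i (by omega)
  have hval := hF.val (i + 1) le_rfl hij
  have hun := hF.un (i + 1) le_rfl hij
  have hstp := hO.stp i (by omega)
  have h1 : φ (H (i + 1) 0) = fz n c (φ (y i)) := by rw [hval]; exact hstp
  have hM3 : (1 / 2 : ℝ) ^ M ≤ 1 := pow_le_one₀ (by norm_num) (by norm_num)
  have h2 : 3 / 4 ≤ ‖y i‖ ^ n := by
    refine hM1.trans ?_
    exact pow_le_pow_left₀ (by linarith) (by linarith) n
  have h3 : ∀ x ∈ UD, ‖T (H (i + 1) 0) (H (i + 1) x)‖ ≤ 1 / 4 := by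
    intro x hx
    have h := hDLN (H (i + 1)) (1 / 4) hun.dif hun.map hH4 x hx
    have hx1 : ‖x‖ < 1 := by simpa [UD] using hx
    linarith
  obtain ⟨H₀, hU0, hv0, hr0, hT0⟩ := hBRH n c V φ ψ b hSG (y i) (H (i + 1)) hyi h1 h2 hun h3
  have hd0 : ∀ x ∈ UD, hd H₀ x ≤ Real.exp (32 * n ^ 2 * (1 - ‖y i‖) ^ 2) *
      (Real.exp (32 * n ^ 2 * ∑ q ∈ Finset.Ico (i + 1) j, (1 - ‖y q‖) ^ 2) / 8) := by
    intro x hx
    have hHx : H₀ x ∈ UD := hU0.map hx
    have h4 : 1 - ‖H₀ x‖ ≤ 4 * (1 - ‖y i‖) :=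
      (hMOB (y i) hyi).2.2.2.2.2.2.2.2.2.2.2 (H₀ x) hHx (hT0 x hx)
    have h5 : 1 / 2 ≤ ‖H₀ x‖ := by linarith
    have h6 := hDST n c V φ ψ b hSG H₀ (H (i + 1)) hU0.dif hun.dif hU0.map hun.map hr0 x hx h5
    have h7 := hF.bnd (i + 1) le_rfl hij x hx
    have h8 : ‖H₀ x‖ < 1 := by simpa [UD] using hHx
    have h9 : Real.exp (2 * n ^ 2 * (1 - ‖H₀ x‖) ^ 2) ≤
        Real.exp (32 * n ^ 2 * (1 - ‖y i‖) ^ 2) := by
      rw [Real.exp_le_exp]
      have h10 : (1 - ‖H₀ x‖) ^ 2 ≤ (4 * (1 - ‖y i‖)) ^ 2 :=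
        pow_le_pow_left₀ (by linarith) h4 2
      have h11 : (0 : ℝ) ≤ 2 * n ^ 2 := by positivity
      have h12 := mul_le_mul_of_nonneg_left h10 h11
      calc 2 * (n : ℝ) ^ 2 * (1 - ‖H₀ x‖) ^ 2 ≤ 2 * n ^ 2 * (4 * (1 - ‖y i‖)) ^ 2 := h12
        _ = 32 * n ^ 2 * (1 - ‖y i‖) ^ 2 := by ring
    calc hd H₀ x ≤ Real.exp (2 * n ^ 2 * (1 - ‖H₀ x‖) ^ 2) * hd (H (i + 1)) x := h6
      _ ≤ Real.exp (2 * n ^ 2 * (1 - ‖H₀ x‖) ^ 2) *
          (Real.exp (32 * n ^ 2 * ∑ q ∈ Finset.Ico (i + 1) j, (1 - ‖y q‖) ^ 2) / 8) :=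
        mul_le_mul_of_nonneg_left h7 (Real.exp_pos _).le
      _ ≤ _ := mul_le_mul_of_nonneg_right h9 (by positivity)
  have hne : ∀ l, i + 1 ≤ l → Function.update H i H₀ l = H l := fun l hl =>
    Function.update_of_ne (by omega) _ _
  have heq : Function.update H i H₀ i = H₀ := Function.update_self _ _ _
  refine ⟨Function.update H i H₀, ?_⟩
  constructor
  · omega
  · intro l hl hlj
    rcases Nat.eq_or_lt_of_le hl with h | h
    · rw [← h, heq]; exact hU0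
    · rw [hne l h]; exact hF.un l h hlj
  · intro l hl hlj
    rcases Nat.eq_or_lt_of_le hl with h | h
    · rw [← h, heq]; exact hv0
    · rw [hne l h]; exact hF.val l h hlj
  · intro x hx
    rw [hne j hij]; exact hF.top x hx
  · intro l hl hlj x hx
    rcases Nat.eq_or_lt_of_le hl with h | h
    · rw [← h, heq, hne (i + 1) le_rfl]; exact hr0 x hx
    · rw [hne l h, hne (l + 1) (by omega)]; exact hF.rel l h hlj x hx
  · intro l hl hlj
    rw [hne l hl]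
    rcases Nat.eq_or_lt_of_le hl with h | h
    · have : l = i + 1 := by omega
      rw [this]; exact hbig
    · exact hF.big l h hlj
  · intro l hl hlj x hx
    rcases Nat.eq_or_lt_of_le hl with h | h
    · rw [← h, heq]
      refine (hd0 x hx).trans (le_of_eq ?_)
      have hs : ∑ q ∈ Finset.Ico i j, (1 - ‖y q‖) ^ 2 =
          (1 - ‖y i‖) ^ 2 + ∑ q ∈ Finset.Ico (i + 1) j, (1 - ‖y q‖) ^ 2 :=
        Finset.sum_eq_sum_Ico_succ_bot (by omega) _
      rw [hs, mul_add, Real.exp_add]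
      ring
    · rw [hne l h]; exact hF.bnd l h hlj x hx

end HY
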