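import Pool.Agent.helper52.HY.SpecU

set_option autoImplicit false

open Complex Metric Set Filter Topology MeasureTheory
open Pool.Agent.helper98.ILF Pool.Agent.helper16.Multibrot

noncomputable section

namespace HY

theorem LMU_cont (n l : ℕ) (w : ℂ) : Continuous fun c : ℂ => (fz n c)^[l] w := by
  induction l with
  | zero =>
    simp only [Function.iterate_zero, id]
    exact continuous_const
  | succ l ih =>
    have h : (fun c : ℂ => (fz n c)^[l + 1] w) = fun c : ℂ => ((fz n c)^[l] w) ^ n + c := by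
      funext c
      rw [Function.iterate_succ_apply']
      rfl
    rw [h]
    exact (ih.pow n).add continuous_id

theorem LMU (hMCL : MCL_stmt) (hVKB : VKB_stmt) (hBRG : BR.BRG_stmt) : LMU_stmt := by
  intro n hn r hr ρ hρ
  by_contra hcon
  push Not at hcon
  choose c hc hd z hz hb using hcon
  obtain ⟨hcomp, hcl⟩ := hMCL n hn
  have hK : IsCompact ((multibrot n ∩ {c : ℂ | Disjoint (ball c r) (hyperbolic n)}) ×ˢ
      closedBall (0 : ℂ) 4) := (hcomp.inter_right (hcl r).1).prod (isCompact_closedBall 0 4)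
  have hVanti : ∀ c ∈ multibrot n, ∀ k l : ℕ, l ≤ k → VV n c k ⊆ VV n c l := by
    intro c hc k l hkl
    induction hkl with
    | refl => exact Subset.rfl
    | step h ih =>
      obtain ⟨-, -, -, -, -, -, -, hV, -⟩ := hVKB n c hn hc
      exact (hV _).trans ih
  have hmem : ∀ N, ((c N, z N) : ℂ × ℂ) ∈ (multibrot n ∩ {c : ℂ | Disjoint (ball c r) (hyperbolic n)}) ×ˢ
      closedBall (0 : ℂ) 4 := by
    intro N
    refine ⟨⟨hc N, hd N⟩, ?_⟩
    obtain ⟨-, -, -, -, -, -, hV4, -, -, hfV, -⟩ := hVKB n (c N) hn (hc N)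
    exact ball_subset_closedBall (hV4 0 (hfV 0 (hz N)))
  obtain ⟨⟨a, b⟩, hab, φ, hφ, hlim⟩ := hK.tendsto_subseq hmem
  obtain ⟨⟨ha, had⟩, -⟩ := hab
  have hlimc : Tendsto (fun j => c (φ j)) atTop (𝓝 a) :=
    (continuous_fst.tendsto (a, b)).comp hlim
  have hlimz : Tendsto (fun j => z (φ j)) atTop (𝓝 b) :=
    (continuous_snd.tendsto (a, b)).comp hlim
  have h4 : ∀ w ∈ ball b (ρ / 2), ∀ l : ℕ, ‖(fz n a)^[l] w‖ ≤ 4 := by
    intro w hw l
    have h1 : Tendsto (fun j => ‖(fz n (c (φ j)))^[l] w‖) atTop (𝓝 ‖(fz n a)^[l] w‖) :=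
      ((LMU_cont n l w).norm.tendsto a).comp hlimc
    refine le_of_tendsto h1 ?_
    have h2 : ∀ᶠ j in atTop, dist (z (φ j)) b < ρ / 2 :=
      hlimz.eventually (ball_mem_nhds b (by positivity))
    filter_upwards [h2, eventually_ge_atTop l] with j hj hjl
    have h3 : w ∈ ball (z (φ j)) ρ := by
      rw [mem_ball] at hw ⊢
      have := dist_triangle w b (z (φ j))
      rw [dist_comm b] at this
      linarith
    have h5 : l ≤ φ j := hjl.trans (hφ.id_le j)
    have h6 : w ∈ VV n (c (φ j)) l := hVanti _ (hc _) _ _ h5 (hb (φ j) h3)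
    exact le_of_lt h6
  have hsub : ball b (ρ / 2) ⊆ filled n a := by
    intro w hw k
    by_contra hlt
    rw [not_le] at hlt
    have h1 := growth hn hlt.le
    have h2 := h4 w hw (k + 1)
    have h3 : (fz n a)^[k + 1] w = ((fun z : ℂ => z ^ n + a)^[k] w) ^ n + a := by
      rw [Function.iterate_succ_apply']
      rfl
    rw [h3] at h2
    have := norm_nonneg a
    linarith
  have hint := (hBRG n a r hn hr ha had).2.1
  have : b ∈ interior (filled n a) := by
    rw [mem_interior]
    exact ⟨ball b (ρ / 2), hsub, isOpen_ball, mem_ball_self (by positivity)⟩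
  rw [hint] at this
  exact this

end HY
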